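import Pool.Agent.Helper61.Tri.Goals2

/-!
# Packet FODD: final count, odd kinds
-/

set_option autoImplicit false

open Finset SimpleGraph Pool.Agent.Helper61.Tri

namespace Pool.Agent.Helper28.Tri

open scoped Classical

theorem prod_le {m d : ℕ} (h : d ≤ m) : d * (m - d) ≤ (m / 2) * ((m + 1) / 2) ∧
    (d * (m - d) = (m / 2) * ((m + 1) / 2) → d = m / 2 ∨ d = (m + 1) / 2) := by
  obtain ⟨d', rfl⟩ := Nat.exists_eq_add_of_le h
  rw [Nat.add_sub_cancel_left]
  set a := (d + d') / 2 with ha
  set b := (d + d' + 1) / 2 with hb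
  have hab : a + b = d + d' := by omega
  have hab2 : a ≤ b := by omega
  rcases Nat.lt_or_ge d a with h1 | h1
  · obtain ⟨t, ht⟩ := Nat.exists_eq_add_of_lt h1
    have hd' : d' = b + (t + 1) := by omega
    have hlt : d * d' < a * b := by
      rw [hd', ht]
      nlinarith
    exact ⟨hlt.le, fun h => absurd h hlt.ne⟩
  · rcases Nat.lt_or_ge b d with h2 | h2
    · obtain ⟨t, ht⟩ := Nat.exists_eq_add_of_lt h2
      have ha' : a = d' + (t + 1) := by omega
      have hlt : d * d' < a * b := by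
        rw [ha', ht]
        nlinarith
      exact ⟨hlt.le, fun h => absurd h hlt.ne⟩
    · rcases (show d = a ∨ d = b by omega) with h3 | h3
      · have : d' = b := by omega
        rw [h3, this]
        exact ⟨le_rfl, fun _ => Or.inl rfl⟩
      · have : d' = a := by omega
        rw [h3, this, mul_comm]
        exact ⟨le_rfl, fun _ => Or.inr rfl⟩

theorem six_fodd (s n : ℕ) : 6 * fodd s n = 6 * s * (((n - s) / 2) * ((n - s + 1) / 2)) +
    3 * s * (s - 1) * (n - s) + s * (s - 1) * (s - 2) := by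
  unfold fodd
  have h2 : 2 ∣ s * (s - 1) := by
    rcases s with _ | s
    · simp
    · have := Nat.even_mul_succ_self s
      rw [Nat.add_sub_cancel, mul_comm]
      exact this.two_dvd
  have h6 : 6 ∣ s * (s - 1) * (s - 2) := by
    rcases s with _ | _ | _ | s
    · simp
    · simp
    · simp
    · have h := Nat.factorial_dvd_descFactorial (s + 3) 3
      have h3 : (s + 3).descFactorial 3 = (s + 3) * (s + 2) * (s + 1) := by
        simp [Nat.descFactorial]
        ring
      rw [h3] at h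
      exact h
  obtain ⟨x, hx⟩ := h2
  obtain ⟨y, hy⟩ := h6
  rw [hy, hx, Nat.mul_div_cancel_left x (by norm_num), Nat.mul_div_cancel_left y (by norm_num)]
  have h3 : 3 * s * (s - 1) = 3 * (2 * x) := by rw [← hx]; ring
  rw [h3]
  ring

theorem fodd : LinkX → COdd → CountX → TFmax → FOdd := by
  intro hL hC hCX hTF s hs κ hκ
  obtain ⟨K, n1, hK⟩ := hC s hs
  obtain ⟨n2, hn2⟩ := hL s K (by omega)
  refine ⟨max (max n1 n2) (s + 1), ?_⟩
  intro V _ hn G X hG hXc hU
  have hn1 : n1 ≤ Fintype.card V := le_trans (le_trans (le_max_left _ _) (le_max_left _ _)) hn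
  have hn2' : n2 ≤ Fintype.card V := le_trans (le_trans (le_max_right _ _) (le_max_left _ _)) hn
  have hns : s + 1 ≤ Fintype.card V := le_trans (le_max_right _ _) hn
  have hctx : Ctx G s X := ⟨hXc, by rw [hU, Finset.card_empty, Nat.cast_zero]; positivity⟩
  have hQ : ∀ v, v ∉ X → v ∈ Qs G X := by
    intro v hv
    by_contra hcon
    have : v ∈ Us G X := by
      unfold Us
      exact Finset.mem_filter.mpr ⟨Finset.mem_univ _, hv, hcon⟩
    rw [hU] at this
    exact absurd this (Finset.notMem_empty _)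
  have hlnk := (hn2 V hn2' G X hctx).1
  set G' := within G Xᶜ with hG'
  have hadj' : ∀ u v, G'.Adj u v ↔ G.Adj u v ∧ u ∉ X ∧ v ∉ X := by
    intro u v
    have : G'.Adj u v ↔ G.Adj u v ∧ u ∈ Xᶜ ∧ v ∈ Xᶜ := Iff.rfl
    rw [this, Finset.mem_compl, Finset.mem_compl]
  have hTFG : TF G' := by
    intro u v w huv huw hvw
    have huX := ((hadj' u v).mp huv).2.1
    have hvX := ((hadj' u v).mp huv).2.2
    obtain ⟨c1, c2, -⟩ := hK V hn1 G X hctx G' hG'
    have hX2 : 1 < X.card := by omega
    obtain ⟨d, hd, d', hd', hdd⟩ := Finset.one_lt_card.mp hX2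
    rcases hκ with h | h
    · rw [h] at hG
      exact hG (c1 u v w d huv huw hvw hd (hlnk u (hQ u huX) d hd))
    · rw [h] at hG
      exact hG (c2 u v w d d' huv huw hvw hd hd' hdd (hlnk u (hQ u huX) d hd)
        (hlnk v (hQ v hvX) d' hd'))
  have hot : (ot G').card = 0 := by
    rw [Finset.card_eq_zero, Finset.eq_empty_iff_forall_notMem]
    rintro ⟨a, b, c⟩ h
    obtain ⟨-, h1, h2, h3⟩ := Finset.mem_filter.mp h
    exact hTFG a b c h1 h2 h3
  have hWcard : (Xᶜ).card = Fintype.card V - s := by rw [Finset.card_compl, hXc]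
  have hWne : (Xᶜ).Nonempty := by
    rw [← Finset.card_pos, hWcard]
    omega
  obtain ⟨z, hz, hzmax⟩ := Finset.exists_max_image Xᶜ (fun v => (nb G' v).card) hWne
  have hzall : ∀ v, (nb G' v).card ≤ (nb G' z).card := by
    intro v
    by_cases hv : v ∈ Xᶜ
    · exact hzmax v hv
    · have : nb G' v = ∅ := by
        rw [Finset.eq_empty_iff_forall_notMem]
        intro w hw
        obtain ⟨-, h1⟩ := Finset.mem_filter.mp hw
        exact hv (Finset.mem_compl.mpr ((hadj' v w).mp h1).2.1)
      rw [this, Finset.card_empty]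
      exact Nat.zero_le _
  obtain ⟨t1, t2, t3⟩ := hTF V G' Xᶜ hTFG
    (fun u v h => Finset.mem_compl.mpr ((hadj' u v).mp h).2.1) z hz hzall
  obtain ⟨c1, c2⟩ := hCX V G X s hs hXc G' hG'
  rw [hot, zero_add] at c1 c2
  rw [hWcard] at t1 t2 t3 c1 c2
  set m := Fintype.card V - s with hm
  set d := (nb G' z).card with hd
  obtain ⟨p1, p2⟩ := prod_le t1
  have hsix := six_fodd s (Fintype.card V)
  rw [← hm] at hsix
  have hoe : (oe G').card ≤ 2 * ((m / 2) * ((m + 1) / 2)) := by
    refine t2.trans ?_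
    omega
  have h3s : 3 * s * (oe G').card ≤ 3 * s * (2 * ((m / 2) * ((m + 1) / 2))) :=
    Nat.mul_le_mul_left _ hoe
  have he : 3 * s * (2 * ((m / 2) * ((m + 1) / 2))) = 6 * s * ((m / 2) * ((m + 1) / 2)) := by ring
  constructor
  · rw [hsix]
    omega
  · intro heq
    rw [hsix] at heq
    have h1 : 3 * s * (oe G').card = 3 * s * (2 * ((m / 2) * ((m + 1) / 2))) := by omega
    have hspos : 0 < 3 * s := by omega
    have h2 : (oe G').card = 2 * ((m / 2) * ((m + 1) / 2)) := Nat.eq_of_mul_eq_mul_left hspos h1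
    have h3 : (oe G').card = 2 * (d * (m - d)) := by omega
    have h4 : d * (m - d) = (m / 2) * ((m + 1) / 2) := by omega
    have hadjW := t3 h3
    have hfull := c2 (by rw [h1]; omega) (by omega)
    have hnbW : nb G' z ⊆ Xᶜ := by
      intro w hw
      obtain ⟨-, h5⟩ := Finset.mem_filter.mp hw
      exact Finset.mem_compl.mpr ((hadj' z w).mp h5).2.2
    have hrest : (Xᶜ \ nb G' z).card = m - d := by
      rw [Finset.card_sdiff_of_subset hnbW, hWcard]
    have hmemA : ∀ u, u ∈ Xᶜ → (u ∉ nb G' z ↔ u ∈ Xᶜ \ nb G' z) := by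
      intro u hu
      rw [Finset.mem_sdiff]
      tauto
    -- the adjacency
    have hadjG : ∀ u v, G.Adj u v ↔ u ≠ v ∧ (u ∈ X ∨ v ∈ X ∨
        (u ∈ nb G' z ∧ v ∈ Xᶜ \ nb G' z) ∨ (u ∈ Xᶜ \ nb G' z ∧ v ∈ nb G' z)) := by
      intro u v
      constructor
      · intro h
        refine ⟨h.ne, ?_⟩
        by_cases hu : u ∈ X
        · exact Or.inl hu
        by_cases hv : v ∈ X
        · exact Or.inr (Or.inl hv)
        have hu' := Finset.mem_compl.mpr hu
        have hv' := Finset.mem_compl.mpr hv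
        have h5 := (hadjW u hu' v hv').mp ((hadj' u v).mpr ⟨h, hu, hv⟩)
        rw [hmemA u hu', hmemA v hv'] at h5
        exact Or.inr (Or.inr h5)
      · rintro ⟨hne, h | h | h | h⟩
        · exact hfull u h v hne.symm
        · exact (hfull v h u hne).symm
        · have hu' := hnbW h.1
          have hv' := (Finset.mem_sdiff.mp h.2).1
          exact ((hadj' u v).mp ((hadjW u hu' v hv').mpr
            (Or.inl ⟨h.1, (Finset.mem_sdiff.mp h.2).2⟩))).1
        · have hu' := (Finset.mem_sdiff.mp h.1).1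
          have hv' := hnbW h.2
          exact ((hadj' u v).mp ((hadjW u hu' v hv').mpr
            (Or.inr ⟨(Finset.mem_sdiff.mp h.1).2, h.2⟩))).1
    have hXA : Disjoint X (nb G' z) := by
      rw [Finset.disjoint_left]
      intro a ha ha'
      exact (Finset.mem_compl.mp (hnbW ha')) ha
    have hXB : Disjoint X (Xᶜ \ nb G' z) := by
      rw [Finset.disjoint_left]
      intro a ha ha'
      exact (Finset.mem_compl.mp (Finset.mem_sdiff.mp ha').1) ha
    have hAB : Disjoint (nb G' z) (Xᶜ \ nb G' z) := Finset.disjoint_sdiff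
    have hcov : ∀ v, v ∈ X ∨ v ∈ nb G' z ∨ v ∈ Xᶜ \ nb G' z := by
      intro v
      by_cases h1 : v ∈ X
      · exact Or.inl h1
      by_cases h2 : v ∈ nb G' z
      · exact Or.inr (Or.inl h2)
      exact Or.inr (Or.inr (Finset.mem_sdiff.mpr ⟨Finset.mem_compl.mpr h1, h2⟩))
    rcases p2 h4 with h5 | h5
    · refine ⟨X, nb G' z, Xᶜ \ nb G' z, hXc, h5, by rw [hrest]; omega, hXA, hXB, hAB, hcov, ?_⟩
      exact hadjG
    · refine ⟨X, Xᶜ \ nb G' z, nb G' z, hXc, by rw [hrest]; omega, h5, hXB, hXA, hAB.symm, ?_, ?_⟩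
      · intro v
        rcases hcov v with h | h | h
        · exact Or.inl h
        · exact Or.inr (Or.inr h)
        · exact Or.inr (Or.inl h)
      · intro u v
        rw [hadjG u v]
        constructor
        · rintro ⟨hne, h | h | h | h⟩
          · exact ⟨hne, Or.inl h⟩
          · exact ⟨hne, Or.inr (Or.inl h)⟩
          · exact ⟨hne, Or.inr (Or.inr (Or.inr h))⟩
          · exact ⟨hne, Or.inr (Or.inr (Or.inl h))⟩
        · rintro ⟨hne, h | h | h | h⟩
          · exact ⟨hne, Or.inl h⟩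
          · exact ⟨hne, Or.inr (Or.inl h)⟩
          · exact ⟨hne, Or.inr (Or.inr (Or.inr h))⟩
          · exact ⟨hne, Or.inr (Or.inr (Or.inl h))⟩

end Pool.Agent.Helper28.Tri
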